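import Pool.Agent.H77.UF.Av

/-!
Module UA of the project UF: asymptotic translation invariance of the averages over cubes.
-/

set_option autoImplicit false

open Finset Filter Topology

namespace Pool.Agent.H77.UF

open Pool.Agent.H91.LF Pool.Agent.H31.UF
open Pool.Agent.H12.LF (Wt Ls abel_le tendsto_Ls tendsto_Ls_one tendsto_of_bound sum_inv_sq_le)

variable {k m : ℕ}

/-- The vectors `v` for which translation invariance holds. -/
def goodV (k m : ℕ) (T x y : ℕ → ℕ) : AddSubgroup (Fin (k + 1 + m) → ℤ) where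
  carrier := {v | ∀ f : (Fin (k + 1 + m) → ℤ) → ℝ, Bdd f →
    Tendsto (fun j => av k m (T j) (x j) (y j) (fun ω => f (ω + v)) -
      av k m (T j) (x j) (y j) f) atTop (𝓝 0)}
  zero_mem' := by
    intro f _
    simp
  add_mem' := by
    intro v w hv hw f hf
    have hf' : Bdd (fun ω => f (ω + w)) := by
      obtain ⟨C, hC⟩ := hf
      exact ⟨C, fun ω => hC _⟩
    have h1 := (hv _ hf').add (hw _ hf)
    rw [add_zero] at h1
    refine h1.congr fun j => ?_
    simp only [sub_add_sub_cancel, add_assoc]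
  neg_mem' := by
    intro v hv f hf
    have hf' : Bdd (fun ω => f (ω + -v)) := by
      obtain ⟨C, hC⟩ := hf
      exact ⟨C, fun ω => hC _⟩
    have h1 := (hv _ hf').neg
    rw [neg_zero] at h1
    refine h1.congr fun j => ?_
    simp only [add_assoc, add_neg_cancel, add_zero, neg_sub]

theorem mem_goodV {T x y : ℕ → ℕ} {v : Fin (k + 1 + m) → ℤ} : v ∈ goodV k m T x y ↔
    ∀ f : (Fin (k + 1 + m) → ℤ) → ℝ, Bdd f →
    Tendsto (fun j => av k m (T j) (x j) (y j) (fun ω => f (ω + v)) -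
      av k m (T j) (x j) (y j) f) atTop (𝓝 0) := Iff.rfl

theorem append_add_left (z : Fin (k + 1) → ℤ) (t : Fin m → ℤ) (i : Fin (k + 1)) :
    Fin.append z t + Pi.single (Fin.castAdd m i) 1 = Fin.append (z + Pi.single i 1) t := by
  funext a
  refine Fin.addCases (fun b => ?_) (fun b => ?_) a
  · rw [Pi.add_apply, Fin.append_left, Fin.append_left, Pi.add_apply]
    rcases eq_or_ne b i with h | h
    · subst h
      rw [Pi.single_eq_same, Pi.single_eq_same]
    · rw [Pi.single_eq_of_ne h, Pi.single_eq_of_ne]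
      intro h'
      exact h (Fin.castAdd_injective _ _ h')
  · rw [Pi.add_apply, Fin.append_right, Fin.append_right, Pi.single_eq_of_ne, add_zero]
    intro h'
    have h1 := congrArg Fin.val h'
    simp only [Fin.val_natAdd, Fin.val_castAdd] at h1
    omega

theorem append_add_right (z : Fin (k + 1) → ℤ) (t : Fin m → ℕ) (l : Fin m) :
    Fin.append z (fun i => (t i : ℤ)) + Pi.single (Fin.natAdd (k + 1) l) 1 =
      Fin.append z (fun i => ((Function.update t l (t l + 1) i : ℕ) : ℤ)) := by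
  funext a
  refine Fin.addCases (fun b => ?_) (fun b => ?_) a
  · rw [Pi.add_apply, Fin.append_left, Fin.append_left, Pi.single_eq_of_ne, add_zero]
    intro h'
    have h1 := congrArg Fin.val h'
    simp only [Fin.val_natAdd, Fin.val_castAdd] at h1
    omega
  · rw [Pi.add_apply, Fin.append_right, Fin.append_right]
    rcases eq_or_ne b l with h | h
    · subst h
      rw [Pi.single_eq_same, Function.update_self]
      push_cast
      ring
    · rw [Pi.single_eq_of_ne, Function.update_of_ne h, add_zero]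
      intro h'
      exact h (Fin.natAdd_injective _ _ h')

theorem Gc_diff_le (hT : T_CBT) {f : (Fin (k + 1 + m) → ℤ) → ℝ} {C : ℝ} (hf : ∀ ω, |f ω| ≤ C)
    (i : Fin (k + 1)) {x : ℕ} (hx : 0 < x) (y : ℕ) (t : Fin m → ℕ) :
    |Gc k x y (fun ω => f (ω + Pi.single (Fin.castAdd m i) 1)) t - Gc k x y f t| ≤
      (2 ^ (k + 1) * 3 ^ k * C) * 2 := by
  have hC0 : 0 ≤ C := (abs_nonneg _).trans (hf 0)
  rw [Gc_sub]
  refine (Finset.abs_sum_le_sum_abs _ _).trans ?_
  have h1 : ∀ N ∈ Finset.Icc x y, |(1 / (N : ℝ)) *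
      ((∑ z ∈ CB k N, f (Fin.append z (fun l => (t l : ℤ)) + Pi.single (Fin.castAdd m i) 1) -
        ∑ z ∈ CB k N, f (Fin.append z (fun l => (t l : ℤ)))) / (N : ℝ) ^ (k + 1))| ≤
      (2 ^ (k + 1) * 3 ^ k * C) * (1 / (N : ℝ) ^ 2) := by
    intro N hN
    have hN1 : 1 ≤ N := le_trans hx (Finset.mem_Icc.1 hN).1
    have hN' : (0 : ℝ) < N := by exact_mod_cast hN1
    have hN2 : (1 : ℝ) ≤ N := by exact_mod_cast hN1
    have h2 := (hT k N (fun z => f (Fin.append z (fun l => (t l : ℤ)))) C (fun z => hf _)).2 i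
    simp only [← append_add_left] at h2
    rw [abs_mul, abs_of_pos (by positivity : (0 : ℝ) < 1 / (N : ℝ)), abs_div,
      abs_of_pos (by positivity : (0 : ℝ) < (N : ℝ) ^ (k + 1))]
    have h3 : (2 * (N : ℝ) + 1) ^ k ≤ (3 * N) ^ k :=
      pow_le_pow_left₀ (by positivity) (by linarith) k
    have h4 : (2 : ℝ) ^ (k + 1) * (2 * N + 1) ^ k * C ≤ 2 ^ (k + 1) * 3 ^ k * C * (N : ℝ) ^ k := by
      rw [mul_pow] at h3
      have h5 : (0 : ℝ) ≤ 2 ^ (k + 1) * C := by positivity
      nlinarith [mul_le_mul_of_nonneg_left h3 h5]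
    calc (1 / (N : ℝ)) * (|∑ z ∈ CB k N,
          f (Fin.append z (fun l => (t l : ℤ)) + Pi.single (Fin.castAdd m i) 1) -
          ∑ z ∈ CB k N, f (Fin.append z (fun l => (t l : ℤ)))| / (N : ℝ) ^ (k + 1))
        ≤ (1 / (N : ℝ)) * ((2 ^ (k + 1) * 3 ^ k * C * (N : ℝ) ^ k) / (N : ℝ) ^ (k + 1)) := by
          refine mul_le_mul_of_nonneg_left ?_ (by positivity)
          exact div_le_div_of_nonneg_right (h2.trans h4) (by positivity)
      _ = (2 ^ (k + 1) * 3 ^ k * C) * (1 / (N : ℝ) ^ 2) := by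
          rw [pow_succ (N : ℝ) k]
          field_simp
  refine (Finset.sum_le_sum h1).trans ?_
  rw [← Finset.mul_sum]
  exact mul_le_mul_of_nonneg_left (sum_inv_sq_le hx y) (by positivity)

theorem good_left (hC : T_CBC) (hT : T_CBT) {T x y : ℕ → ℕ} (hx : ∀ j, 0 < x j)
    (h : Tendsto (fun j => Real.log ((y j : ℝ) / x j)) atTop atTop) (i : Fin (k + 1)) :
    (Pi.single (Fin.castAdd m i) 1 : Fin (k + 1 + m) → ℤ) ∈ goodV k m T x y := by
  rw [mem_goodV]
  intro f hf
  obtain ⟨C, hf⟩ := hf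
  have hC0 : 0 ≤ C := (abs_nonneg _).trans (hf 0)
  obtain ⟨c, hc, hc1⟩ := ak_one_ge hC k
  have hL := tendsto_Ls hx h
  refine tendsto_of_bound (E := (2 ^ (k + 1) * 3 ^ k * C) * 2 / c) hL ?_
  filter_upwards [hL.eventually_gt_atTop 0] with j hj
  exact av_diff_inner (by positivity) hc (hc1 m (T j) (x j) (y j) (hx j))
    (fun t => Gc_diff_le hT hf i (hx j) (y j) t) hj

theorem good_right (hC : T_CBC) {T x y : ℕ → ℕ} (hT : Tendsto T atTop atTop)
    (hx : ∀ j, 0 < x j) (h : Tendsto (fun j => Real.log ((y j : ℝ) / x j)) atTop atTop)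
    (l : Fin m) :
    (Pi.single (Fin.natAdd (k + 1) l) 1 : Fin (k + 1 + m) → ℤ) ∈ goodV k m T x y := by
  rw [mem_goodV]
  intro f hf
  obtain ⟨C, hf⟩ := hf
  have hC0 : 0 ≤ C := (abs_nonneg _).trans (hf 0)
  obtain ⟨c, hc, hc1⟩ := ak_one_ge hC k
  have hL := tendsto_Ls hx h
  have hH := tendsto_Ls_one hT
  refine tendsto_of_bound (E := 2 * (3 ^ k * C) / c) hH ?_
  filter_upwards [hL.eventually_gt_atTop 0, hH.eventually_gt_atTop 0] with j hj hj'
  refine av_diff_fiber (by positivity) hc (hc1 m (T j) (x j) (y j) (hx j)) l (fun s => ?_) hj hj'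
  have h1 : ∀ a : ℕ, Gc k (x j) (y j) (fun ω => f (ω + Pi.single (Fin.natAdd (k + 1) l) 1))
      (Function.update s l a) = Gc k (x j) (y j) f (Function.update s l (a + 1)) := by
    intro a
    unfold Gc
    simp only [append_add_right, Function.update_self, Function.update_idem]
  simp only [h1]
  refine (abel_le (g := fun a => Gc k (x j) (y j) f (Function.update s l a))
    (S := (3 ^ k * C) * Ls (x j) (y j)) (fun a => Gc_abs_le hC hf _ _ _) (T j)).trans ?_
  exact le_of_eq (by ring)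

/-- [UA] Asymptotic translation invariance. -/
theorem pf_UA (hCBC : T_CBC) (hCBT : T_CBT) : T_UA := by
  intro k m T x y hA v
  obtain ⟨hT, hx, h, -⟩ := hA
  rw [← mem_goodV]
  have h1 : v = ∑ i, v i • (Pi.single i 1 : Fin (k + 1 + m) → ℤ) := by
    conv_lhs => rw [← Finset.univ_sum_single v]
    refine Finset.sum_congr rfl fun i _ => ?_
    rw [← Pi.single_smul]
    simp
  rw [h1]
  refine AddSubgroup.sum_mem _ fun i _ => AddSubgroup.zsmul_mem _ ?_ _
  refine Fin.addCases (fun b => ?_) (fun b => ?_) i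
  · exact good_left hCBC hCBT hx h b
  · exact good_right hCBC hT hx h b

end Pool.Agent.H77.UF
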