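import Pool.Agent.H77.UF.Av
import Pool.Agent.H42.LF.UM

/-!
Module UM of the project UF: the limit mean of the averages over cubes.
-/

set_option autoImplicit false

open Finset Filter Topology

namespace Pool.Agent.H77.UF

open Pool.Agent.H91.LF Pool.Agent.H31.UF
open Pool.Agent.H12.LF (Wt Ls tendsto_Ls)

variable {k m : ℕ}

theorem av_add (T x y : ℕ) (f g : (Fin (k + 1 + m) → ℤ) → ℝ) :
    av k m T x y (fun ω => f ω + g ω) = av k m T x y f + av k m T x y g := by
  unfold av
  rw [ak_add, add_div]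

theorem av_smul (T x y : ℕ) (c : ℝ) (f : (Fin (k + 1 + m) → ℤ) → ℝ) :
    av k m T x y (fun ω => c * f ω) = c * av k m T x y f := by
  unfold av
  rw [ak_smul, mul_div_assoc]

theorem av_nonneg (T x y : ℕ) (f : (Fin (k + 1 + m) → ℤ) → ℝ) (hf : ∀ ω, 0 ≤ f ω) :
    0 ≤ av k m T x y f :=
  div_nonneg (ak_nonneg T x y f hf) (ak_nonneg T x y _ fun _ => zero_le_one)

theorem av_abs_le (T x y : ℕ) (f : (Fin (k + 1 + m) → ℤ) → ℝ) (C : ℝ) (hC : 0 ≤ C)
    (hf : ∀ ω, |f ω| ≤ C) : |av k m T x y f| ≤ C := by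
  have h1 := ak_nonneg T x y (fun ω => C * 1 + f ω) (fun ω => by linarith [(abs_le.1 (hf ω)).1])
  have h2 := ak_nonneg T x y (fun ω => C * 1 + (-1) * f ω)
    (fun ω => by linarith [(abs_le.1 (hf ω)).2])
  rw [ak_add T x y (fun _ => C * 1) f, ak_smul T x y C (fun _ => 1)] at h1
  rw [ak_add T x y (fun _ => C * 1) (fun ω => (-1) * f ω), ak_smul T x y C (fun _ => 1),
    ak_smul T x y (-1) f] at h2
  have h3 : |ak k m T x y f| ≤ C * ak k m T x y (fun _ => 1) := abs_le.2 ⟨by linarith, by linarith⟩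
  have h4 : 0 ≤ ak k m T x y (fun _ => 1) := ak_nonneg T x y _ fun _ => zero_le_one
  unfold av
  rw [abs_div, abs_of_nonneg h4]
  rcases h4.eq_or_lt with h5 | h5
  · rw [← h5, div_zero]
    exact hC
  · rw [div_le_iff₀ h5]
    exact h3

/-- [UM] The limit mean. -/
theorem pf_UM (hCBC : T_CBC) (hUA : T_UA) (hUB : T_UB) (hUC : T_UC) : T_UM := by
  intro k m T x y hk hA
  classical
  obtain ⟨hT, hx, hlog, -⟩ := id hA
  set F : Filter ℕ := (Filter.hyperfilter ℕ : Filter ℕ) with hF
  have : F.NeBot := by rw [hF]; infer_instance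
  have hFle : F ≤ atTop := Pool.Agent.H42.LF.hyp_le
  -- the limits
  have hlim : ∀ f : (Fin (k + 1 + m) → ℤ) → ℝ, Bdd f →
      Tendsto (fun j => av k m (T j) (x j) (y j) f) F
        (𝓝 (limUnder F (fun j => av k m (T j) (x j) (y j) f))) := by
    intro f hf
    obtain ⟨C, hC⟩ := hf
    refine tendsto_nhds_limUnder ?_
    have hC0 : 0 ≤ C := (abs_nonneg _).trans (hC 0)
    exact Pool.Agent.H42.LF.exists_lim _ C fun j => av_abs_le (T j) (x j) (y j) f C hC0 hC
  obtain ⟨E, hE0⟩ : ∃ E : ((Fin (k + 1 + m) → ℤ) → ℝ) → ℝ, ∀ f, E f =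
    limUnder F (fun j => av k m (T j) (x j) (y j) f) := ⟨_, fun _ => rfl⟩
  have hE : ∀ f, Bdd f → Tendsto (fun j => av k m (T j) (x j) (y j) f) F (𝓝 (E f)) := by
    intro f hf
    rw [hE0]
    exact hlim f hf
  have hBshift : ∀ (v : Fin (k + 1 + m) → ℤ) (f : (Fin (k + 1 + m) → ℤ) → ℝ), Bdd f →
      Bdd (fun ω => f (ω + v)) := fun v f hf => bdd_comp hf fun ω => ω + v
  have hBone : Bdd (fun _ : Fin (k + 1 + m) → ℤ => (1 : ℝ)) := bdd_const 1
  obtain ⟨c, hc, hc1⟩ := ak_one_ge hCBC k
  let M : Mean (k + 1 + m) :=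
    { E := E
      add := by
        intro f g hf hg
        refine tendsto_nhds_unique (hE _ (bdd_add hf hg)) ?_
        refine ((hE f hf).add (hE g hg)).congr fun j => ?_
        exact (av_add _ _ _ f g).symm
      smul := by
        intro c f hf
        refine tendsto_nhds_unique (hE _ (bdd_smul c hf)) ?_
        refine ((hE f hf).const_mul c).congr fun j => ?_
        exact (av_smul _ _ _ c f).symm
      nonneg := by
        intro f hf h0
        exact ge_of_tendsto' (hE f hf) fun j => av_nonneg _ _ _ f h0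
      one := by
        refine tendsto_nhds_unique (hE _ hBone) ?_
        refine Tendsto.congr' ?_ tendsto_const_nhds
        have h1 : ∀ᶠ j in atTop, 1 ≤ T j := hT.eventually_ge_atTop 1
        have h2 : ∀ᶠ j in atTop, 0 < Ls (x j) (y j) :=
          (tendsto_Ls hx hlog).eventually_gt_atTop 0
        refine hFle ?_
        filter_upwards [h1, h2] with j hj1 hj2
        unfold av
        symm
        refine div_self ?_
        have h3 : 0 < Wt m (T j) := by
          refine Finset.sum_pos (fun t ht => Pool.Agent.H42.LF.wt_pos t ht) ?_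
          refine ⟨fun _ => 1, ?_⟩
          refine Fintype.mem_piFinset.2 ?_
          intro l
          rw [Finset.mem_Icc]
          exact ⟨le_refl _, hj1⟩
        exact ((mul_pos hc (mul_pos h3 hj2)).trans_le (hc1 m (T j) (x j) (y j) (hx j))).ne'
      shift := by
        intro v f hf
        have h1 := (hUA k m T x y hA v f hf).mono_left hFle
        have h2 := (hE f hf)
        have h3 := h1.add h2
        rw [zero_add] at h3
        refine tendsto_nhds_unique (hE _ (hBshift v f hf)) ?_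
        refine h3.congr fun j => ?_
        ring }
  refine ⟨M, ?_, ?_, ?_⟩
  · intro p hp f hf
    have h1 := (hUB k m T x y hA p hp.pos f hf).mono_left hFle
    have h3 := h1.add (hE f hf)
    rw [zero_add] at h3
    have hB : Bdd (fun ω : Fin (k + 1 + m) → ℤ => (p : ℝ) ^ (k + 1 + m) *
        if ∀ i, (p : ℤ) ∣ ω i then f (fun i => ω i / p) else 0) := by
      obtain ⟨C, hC⟩ := hf
      refine ⟨(p : ℝ) ^ (k + 1 + m) * C, fun ω => ?_⟩
      rw [abs_mul, abs_of_nonneg (by positivity : (0 : ℝ) ≤ (p : ℝ) ^ (k + 1 + m))]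
      refine mul_le_mul_of_nonneg_left ?_ (by positivity)
      split_ifs
      · exact hC _
      · rw [abs_zero]
        exact (abs_nonneg _).trans (hC 0)
    refine tendsto_nhds_unique (hE _ hB) ?_
    refine h3.congr fun j => ?_
    ring
  · intro b w s hs
    refine le_of_forall_pos_le_add fun η hη => ?_
    rw [zero_add]
    exact le_of_tendsto (hE _ (bdd_mul (bdd_Pv _ _) (bdd_Pv _ _)))
      (hFle (hUC k m T x y hk hA b w s η hs hη))
  · intro f ρ hf hρ
    exact ge_of_tendsto (hE f hf) (hFle hρ)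

end Pool.Agent.H77.UF
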