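import Pool.Agent.H31.UF.Targets
import Pool.Agent.H12.LF.UA

/-!
Common tools for the modules UA and UM of the project UF: the averages over cubes.
-/

set_option autoImplicit false

open Finset Filter Topology

namespace Pool.Agent.H77.UF

open Pool.Agent.H91.LF Pool.Agent.H31.UF
open Pool.Agent.H12.LF (Wt Ls Wt' Wt_eq sum_box wt_update wt_nonneg Wt_nonneg Ls_nonneg
  Wt'_nonneg sum_inv_sq_le)

variable {k m : ℕ}

/-- The inner average. -/
noncomputable def Gc (k : ℕ) (x y : ℕ) (f : (Fin (k + 1 + m) → ℤ) → ℝ) (t : Fin m → ℕ) : ℝ :=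
  ∑ N ∈ Finset.Icc x y, (1 / (N : ℝ)) *
    ((∑ z ∈ CB k N, f (Fin.append z (fun l => (t l : ℤ)))) / (N : ℝ) ^ (k + 1))

theorem ak_eq (T x y : ℕ) (f : (Fin (k + 1 + m) → ℤ) → ℝ) :
    ak k m T x y f = ∑ t ∈ box m T, wt t * Gc k x y f t := rfl

theorem Gc_sub (x y : ℕ) (f g : (Fin (k + 1 + m) → ℤ) → ℝ) (t : Fin m → ℕ) :
    Gc k x y f t - Gc k x y g t = ∑ N ∈ Finset.Icc x y, (1 / (N : ℝ)) *
      ((∑ z ∈ CB k N, f (Fin.append z (fun l => (t l : ℤ))) -
        ∑ z ∈ CB k N, g (Fin.append z (fun l => (t l : ℤ)))) / (N : ℝ) ^ (k + 1)) := by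
  unfold Gc
  rw [← Finset.sum_sub_distrib]
  exact Finset.sum_congr rfl fun N _ => by rw [sub_div, mul_sub]

theorem Gc_add (x y : ℕ) (f g : (Fin (k + 1 + m) → ℤ) → ℝ) (t : Fin m → ℕ) :
    Gc k x y (fun ω => f ω + g ω) t = Gc k x y f t + Gc k x y g t := by
  unfold Gc
  rw [← Finset.sum_add_distrib]
  refine Finset.sum_congr rfl fun N _ => ?_
  rw [Finset.sum_add_distrib, add_div, mul_add]

theorem Gc_smul (x y : ℕ) (c : ℝ) (f : (Fin (k + 1 + m) → ℤ) → ℝ) (t : Fin m → ℕ) :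
    Gc k x y (fun ω => c * f ω) t = c * Gc k x y f t := by
  unfold Gc
  rw [Finset.mul_sum]
  refine Finset.sum_congr rfl fun N _ => ?_
  rw [← Finset.mul_sum]
  ring

theorem Gc_nonneg (x y : ℕ) (f : (Fin (k + 1 + m) → ℤ) → ℝ) (hf : ∀ ω, 0 ≤ f ω)
    (t : Fin m → ℕ) : 0 ≤ Gc k x y f t :=
  Finset.sum_nonneg fun N _ => mul_nonneg (by positivity)
    (div_nonneg (Finset.sum_nonneg fun z _ => hf _) (by positivity))

theorem Gc_abs_le (hC : T_CBC) {f : (Fin (k + 1 + m) → ℤ) → ℝ} {C : ℝ} (hf : ∀ ω, |f ω| ≤ C)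
    (x y : ℕ) (t : Fin m → ℕ) : |Gc k x y f t| ≤ (3 ^ k * C) * Ls x y := by
  have hC0 : 0 ≤ C := (abs_nonneg _).trans (hf 0)
  unfold Gc Ls
  refine (Finset.abs_sum_le_sum_abs _ _).trans ?_
  rw [Finset.mul_sum]
  refine Finset.sum_le_sum fun N _ => ?_
  rw [abs_mul, abs_of_nonneg (by positivity : (0 : ℝ) ≤ 1 / (N : ℝ)), mul_comm]
  refine mul_le_mul_of_nonneg_right ?_ (by positivity)
  rcases Nat.eq_zero_or_pos N with h | h
  · subst h
    simp only [Nat.cast_zero, ne_eq, Nat.add_eq_zero_iff, one_ne_zero, and_false,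
      not_false_eq_true, zero_pow, div_zero, abs_zero]
    positivity
  · have h2 : (0 : ℝ) < (N : ℝ) ^ (k + 1) := by positivity
    rw [abs_div, abs_of_pos h2, div_le_iff₀ h2]
    refine (Finset.abs_sum_le_sum_abs _ _).trans ?_
    refine (Finset.sum_le_sum fun z _ => hf _).trans ?_
    rw [Finset.sum_const, nsmul_eq_mul]
    have h3 := (hC k).2.1 N
    nlinarith [mul_le_mul_of_nonneg_right h3 hC0]

theorem ak_add (T x y : ℕ) (f g : (Fin (k + 1 + m) → ℤ) → ℝ) :
    ak k m T x y (fun ω => f ω + g ω) = ak k m T x y f + ak k m T x y g := by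
  rw [ak_eq, ak_eq, ak_eq, ← Finset.sum_add_distrib]
  exact Finset.sum_congr rfl fun t _ => by rw [Gc_add, mul_add]

theorem ak_smul (T x y : ℕ) (c : ℝ) (f : (Fin (k + 1 + m) → ℤ) → ℝ) :
    ak k m T x y (fun ω => c * f ω) = c * ak k m T x y f := by
  rw [ak_eq, ak_eq, Finset.mul_sum]
  exact Finset.sum_congr rfl fun t _ => by rw [Gc_smul]; ring

theorem ak_nonneg (T x y : ℕ) (f : (Fin (k + 1 + m) → ℤ) → ℝ) (hf : ∀ ω, 0 ≤ f ω) :
    0 ≤ ak k m T x y f :=
  Finset.sum_nonneg fun t _ => mul_nonneg (wt_nonneg t) (Gc_nonneg x y f hf t)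

/-- The average of the constant `1` is of the order of the total weight. -/
theorem ak_one_ge (hC : T_CBC) (k : ℕ) : ∃ c : ℝ, 0 < c ∧ ∀ (m T x y : ℕ), 0 < x →
    c * (Wt m T * Ls x y) ≤ ak k m T x y (fun _ => 1) := by
  obtain ⟨c, hc, h⟩ := (hC k).2.2
  refine ⟨c, hc, fun m T x y hx => ?_⟩
  rw [ak_eq]
  have h1 : ∀ t : Fin m → ℕ, c * Ls x y ≤ Gc k x y (fun _ => 1) t := by
    intro t
    unfold Gc Ls
    rw [Finset.mul_sum]
    refine Finset.sum_le_sum fun N hN => ?_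
    have hN' : (0 : ℝ) < N := by
      have := (Finset.mem_Icc.1 hN).1
      exact_mod_cast (hx.trans_le this)
    rw [mul_comm]
    refine mul_le_mul_of_nonneg_left ?_ (by positivity)
    rw [le_div_iff₀ (by positivity), Finset.sum_const, nsmul_eq_mul, mul_one]
    exact h N
  have h2 : c * (Wt m T * Ls x y) = ∑ t ∈ box m T, wt t * (c * Ls x y) := by
    rw [← Finset.sum_mul]
    show c * (Wt m T * Ls x y) = Wt m T * (c * Ls x y)
    ring
  rw [h2]
  exact Finset.sum_le_sum fun t _ => mul_le_mul_of_nonneg_left (h1 t) (wt_nonneg t)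

/-- Differences of averages from a pointwise bound in `t`. -/
theorem av_diff_inner {f g : (Fin (k + 1 + m) → ℤ) → ℝ} {T x y : ℕ} {E c : ℝ} (hE : 0 ≤ E)
    (hc : 0 < c) (h1 : c * (Wt m T * Ls x y) ≤ ak k m T x y (fun _ => 1))
    (h : ∀ t, |Gc k x y f t - Gc k x y g t| ≤ E) (hL : 0 < Ls x y) :
    |av k m T x y f - av k m T x y g| ≤ (E / c) / Ls x y := by
  have h2 : |ak k m T x y f - ak k m T x y g| ≤ Wt m T * E := by
    rw [ak_eq, ak_eq, ← Finset.sum_sub_distrib]
    refine (Finset.abs_sum_le_sum_abs _ _).trans ?_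
    unfold Wt
    rw [Finset.sum_mul]
    refine Finset.sum_le_sum fun t _ => ?_
    rw [← mul_sub, abs_mul, abs_of_nonneg (wt_nonneg t)]
    exact mul_le_mul_of_nonneg_left (h t) (wt_nonneg t)
  unfold av
  rw [← sub_div]
  rcases (Wt_nonneg (m := m) T).eq_or_lt with hW | hW
  · rw [← hW, zero_mul] at h2
    rw [abs_nonpos_iff.1 h2, zero_div, abs_zero]
    positivity
  · have h3 : 0 < c * (Wt m T * Ls x y) := mul_pos hc (mul_pos hW hL)
    have h4 : 0 < ak k m T x y (fun _ => 1) := h3.trans_le h1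
    rw [abs_div, abs_of_pos h4]
    calc |ak k m T x y f - ak k m T x y g| / ak k m T x y (fun _ => 1)
        ≤ (Wt m T * E) / ak k m T x y (fun _ => 1) := div_le_div_of_nonneg_right h2 h4.le
      _ ≤ (Wt m T * E) / (c * (Wt m T * Ls x y)) :=
          div_le_div_of_nonneg_left (by positivity) h3 h1
      _ = (E / c) / Ls x y := by field_simp

/-- Differences of averages from a bound on the fibers in one `t` coordinate. -/
theorem av_diff_fiber {f g : (Fin (k + 1 + m) → ℤ) → ℝ} {T x y : ℕ} {E c : ℝ} (hE : 0 ≤ E)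
    (hc : 0 < c) (h1 : c * (Wt m T * Ls x y) ≤ ak k m T x y (fun _ => 1)) (l : Fin m)
    (h : ∀ s : Fin m → ℕ, |∑ a ∈ Finset.Icc 1 T, (1 / (a : ℝ)) *
      (Gc k x y f (Function.update s l a) - Gc k x y g (Function.update s l a))| ≤ E * Ls x y)
    (hL : 0 < Ls x y) (hH : 0 < Ls 1 T) :
    |av k m T x y f - av k m T x y g| ≤ (E / c) / Ls 1 T := by
  have h2 : |ak k m T x y f - ak k m T x y g| ≤ Wt' m T l * (E * Ls x y) := by
    rw [ak_eq, ak_eq, ← Finset.sum_sub_distrib, sum_box l]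
    refine (Finset.abs_sum_le_sum_abs _ _).trans ?_
    unfold Wt'
    rw [Finset.sum_mul]
    refine Finset.sum_le_sum fun s hs => ?_
    have h2 : ∑ a ∈ Finset.Icc 1 T, (wt (Function.update s l a) *
        Gc k x y f (Function.update s l a) - wt (Function.update s l a) *
        Gc k x y g (Function.update s l a)) = wt s * ∑ a ∈ Finset.Icc 1 T, (1 / (a : ℝ)) *
        (Gc k x y f (Function.update s l a) - Gc k x y g (Function.update s l a)) := by
      rw [Finset.mul_sum]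
      refine Finset.sum_congr rfl fun a _ => ?_
      rw [wt_update (Finset.mem_filter.1 hs).2]
      ring
    rw [h2, abs_mul, abs_of_nonneg (wt_nonneg s)]
    exact mul_le_mul_of_nonneg_left (h s) (wt_nonneg s)
  unfold av
  rw [← sub_div]
  rw [Wt_eq T l] at h1
  rcases (Wt'_nonneg (m := m) T l).eq_or_lt with hW | hW
  · rw [← hW, zero_mul] at h2
    rw [abs_nonpos_iff.1 h2, zero_div, abs_zero]
    positivity
  · have h3 : 0 < c * (Wt' m T l * Ls 1 T * Ls x y) :=
      mul_pos hc (mul_pos (mul_pos hW hH) hL)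
    have h4 : 0 < ak k m T x y (fun _ => 1) := h3.trans_le h1
    rw [abs_div, abs_of_pos h4]
    calc |ak k m T x y f - ak k m T x y g| / ak k m T x y (fun _ => 1)
        ≤ (Wt' m T l * (E * Ls x y)) / ak k m T x y (fun _ => 1) :=
          div_le_div_of_nonneg_right h2 h4.le
      _ ≤ (Wt' m T l * (E * Ls x y)) / (c * (Wt' m T l * Ls 1 T * Ls x y)) :=
          div_le_div_of_nonneg_left (by positivity) h3 h1
      _ = (E / c) / Ls 1 T := by field_simp

end Pool.Agent.H77.UF
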